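import Mathlib
import Pool.Agent.J6H73.CP.Fin
import Pool.Agent.J6H88.CP.Ht

/-!
# The truncated Vojta inequality on all curves mapping to `ℙ¹ × ℙ¹`, at the closed points in a linear
# system, over the fields of the points, with a power saving for the exceptional points

Let `C` be a geometrically integral affine curve over the number field `K`, with ring of functions
`A` (finite over a polynomial ring `K[X] ⊆ A`), let `f_1, …, f_m ∈ A` be linearly independent over
`K`, and `γ < m`. There is ONE set `E` of members of this linear system, points of `ℙ^(m-1)(K)`, with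
at most `exp ((m - γ) U - √U)` elements of logarithmic height at most `U` (in all there are about
`exp (m U)` such members), such that the following holds for all closed points `x` of `C` which are
the zeros of a member outside `E` (the member generates the maximal ideal of `x`), for ALL maps
`(α, β)` from `C` to `ℙ¹ × ℙ¹` over `K`, ALL divisors `D : F = 0` over `K` of bidegree `(q, s)` which
do not contain the image, and all finite sets `S` of primes. Divide (some of) the closed points of
`C` over `D` into groups `G_1, …, G_t`, and let `ρ_i` be the number of conditions which the points of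
`G_i` impose on the linear system. If `κ₁, κ₂ ≥ 0` and
`κ₁ deg α + κ₂ deg β < ∑ (ρ_i - γ)`, then over the residue field `M = K(x)`
`N^(1)_S(D, (α(x), β(x))) ≥ κ₁ h_M(α(x)) + κ₂ h_M(β(x)) - C`, with `C` independent of `x`.

For example, let `C` be of genus `g` and let the `f_i` be a basis of the sections of a line bundle of
degree `n ≥ 2 g - 1` (which has a divisor supported outside the affine curve), `m = n + 1 - g`. Then
the `x` are closed points of degree `n`, and up to `n - 2 g + 1` geometric points impose independent
conditions. If `C` meets `D` in `q deg α + s deg β ≤ n - 2 g + 1` points, all in the affine part, then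
with one group the inequality of the problem (`κ₁ = q - 2`, `κ₂ = s - 2`, even with `ε = 0`) holds
outside `E` for `γ < 2 (deg α + deg β)`.

The heights and the local heights are those of the problem, relative to `M`; `Height.logHeight` is
the logarithmic height of a vector relative to its field.

Proof. The exceptional members have values at the points of one of the groups `G_i` whose norms have
together a radical at most `exp ((ρ_i - γ - η) U)`. We fix the set of the primes of `K` which divide
these norms; there are few units and numbers of bounded height which are supported above these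
primes, so there are few possibilities for all the values together, and they impose `ρ_i`
independent conditions on the coefficients. A diagonal argument yields one set for all maps and
divisors. The height of `α(x)` is at most `deg α` times the height of the member, up to a constant:
a norm of the member is a polynomial with the root `α(x) + 1/δ(α(x))`, for a suitable polynomial `δ`.
-/

set_option autoImplicit false

namespace Pool.Agent.Results.MP_542436_nt.ClosedPointsOfCurves

open NumberField IsDedekindDomain Polynomial
open scoped LinearAlgebra.Projectivization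

/-- the degree of the map `(y 0 : y 1)` from the curve to the projective line: the degree of the
function field over `K (y 0 / y 1)` (and `0` if the map is constant) -/
noncomputable def degree (K : Type) {A : Type} [Field K] [CommRing A] [IsDomain A] [Algebra K A]
    (y : Fin 2 → A) : ℕ :=
  Module.finrank (IntermediateField.adjoin K
    {algebraMap A (FractionRing A) (y 0) / algebraMap A (FractionRing A) (y 1)}) (FractionRing A)

/-- the restriction `F (y; z)` of a form `F` in two pairs of variables to the curve, for the map
`((y 0 : y 1), (z 0 : z 1))` -/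
noncomputable def restriction {K A : Type} [Field K] [CommRing A] [Algebra K A] (y z : Fin 2 → A)
    (F : MvPolynomial (Fin 2 ⊕ Fin 2) K) : A := MvPolynomial.aeval (Sum.elim y z) F

/-- the map is defined at the closed point `x` and its value there is on the divisor `F = 0` -/
def LiesOver {K A : Type} [Field K] [CommRing A] [Algebra K A] (y z : Fin 2 → A)
    (F : MvPolynomial (Fin 2 ⊕ Fin 2) K) (x : MaximalSpectrum A) : Prop :=
  (∃ l, y l ∉ x.asIdeal) ∧ (∃ l, z l ∉ x.asIdeal) ∧ restriction y z F ∈ x.asIdeal

/-- the member `∑ c_i f_i` of the linear system -/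
def member {K A : Type} [Field K] [CommRing A] [Algebra K A] {m : ℕ} (f : Fin m → A)
    (c : Fin m → K) : A := ∑ i, c i • f i

/-- the number of conditions which the closed points of `G` impose on the linear system: the
codimension of the space of the `c` for which `∑ c_i f_i` vanishes at the points of `G` -/
noncomputable def conditions (K : Type) {A : Type} [Field K] [CommRing A] [Algebra K A] {m : ℕ}
    (f : Fin m → A) (G : Finset (MaximalSpectrum A)) : ℕ :=
  m - Module.finrank K (Submodule.span K {c : Fin m → K | ∀ x ∈ G, member f c ∈ x.asIdeal})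

section Local

variable {K M : Type} [Field K] [Field M] [NumberField M] [Algebra K M]

/-- the local height at the prime `v` of `M` of the divisor `F = 0` of bidegree `(q, s)`, defined
over `K`, at the point `(y, z)` over `M`, normalised by the maximum of the absolute values of the
coefficients of `F` -/
noncomputable def localHeight (F : MvPolynomial (Fin 2 ⊕ Fin 2) K) (q s : ℕ)
    (v : HeightOneSpectrum (𝓞 M)) (y z : Fin 2 → M) : ℝ :=
  Real.log ((⨆ d : F.support, FinitePlace.mk v (algebraMap K M (F.coeff d))) *
    ((⨆ i, FinitePlace.mk v (y i)) ^ q * (⨆ i, FinitePlace.mk v (z i)) ^ s) /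
    FinitePlace.mk v (MvPolynomial.aeval (Sum.elim y z) F))

/-- the truncated counting function `N^(1)_S(D, P)` over `M`: the sum of
`min (log N(v), localHeight)` over the primes `v` of `M` not above the primes in `S` -/
noncomputable def counting (S : Finset ℕ) (F : MvPolynomial (Fin 2 ⊕ Fin 2) K) (q s : ℕ)
    (y z : Fin 2 → M) : ℝ :=
  ∑ᶠ (v : HeightOneSpectrum (𝓞 M)) (_ : ∀ p ∈ S, (p : 𝓞 M) ∉ v.asIdeal),
    min (Real.log (Ideal.absNorm v.asIdeal : ℝ)) (localHeight F q s v y z)

end Local

/-- a form of bidegree `(q, s)` which does not vanish on the image of the map `(y, z)` -/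
structure Admissible {K A : Type} [Field K] [CommRing A] [Algebra K A] (q s : ℕ)
    (y z : Fin 2 → A) (F : MvPolynomial (Fin 2 ⊕ Fin 2) K) : Prop where
  bihomogeneous : F.IsWeightedHomogeneous (Sum.elim (fun _ : Fin 2 => ((1, 0) : ℕ × ℕ))
      (fun _ : Fin 2 => ((0, 1) : ℕ × ℕ))) (q, s)
  ne_zero : restriction y z F ≠ 0

theorem vanish_eq {K A : Type} [Field K] [CommRing A] [Algebra K A] {m : ℕ} (f : Fin m → A)
    (G : Finset (MaximalSpectrum A)) : conditions K f G = Pool.Agent.J6H73.CP.conds K f G := by
  unfold conditions Pool.Agent.J6H73.CP.conds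
  have h : Submodule.span K {c : Fin m → K | ∀ x ∈ G, member f c ∈ x.asIdeal} =
      Pool.Agent.J6H73.CP.vanish K f G :=
    Submodule.span_eq (Pool.Agent.J6H73.CP.vanish K f G)
  rw [h]

/-- **Theorem.** Let `A` be the ring of functions of a geometrically integral affine curve over the
number field `K`, finite over `K[X]`, let `f_1, …, f_m ∈ A` be linearly independent over `K`, and
`γ < m`. There is a set `E` of members of the linear system, at most `exp ((m - γ) U - √U)` of them of
height at most `U`, such that for all maps `(y, z)` from the curve to `ℙ¹ × ℙ¹`, all divisors `F = 0`,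
all disjoint groups `G i` of closed points over the divisor, and all `κ₁, κ₂ ≥ 0` with
`κ₁ deg y + κ₂ deg z < ∑ (ρ_i - γ)` the inequality `N^(1)_S(D, P) ≥ κ₁ h_M(y) + κ₂ h_M(z) - C` holds
at the image `P` of every closed point `φ` which is the zero of a member outside `E`. -/
theorem result (K A : Type) [Field K] [NumberField K] [CommRing A] [IsDomain A]
    [Algebra K A] [Algebra K[X] A] [IsScalarTower K K[X] A] [Module.Finite K[X] A]
    [FaithfulSMul K[X] A] (hA : IsDomain (TensorProduct K (AlgebraicClosure K) A)) (m : ℕ)
    (f : Fin m → A) (hf : LinearIndependent K f) (γ : ℝ) (hγ : γ < m) :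
    ∃ E : Set (ℙ K (Fin m → K)),
      (∀ U : ℝ, 0 ≤ U → {P | P ∈ E ∧ Height.logHeight P.rep ≤ U}.Finite ∧
        ({P | P ∈ E ∧ Height.logHeight P.rep ≤ U}.ncard : ℝ) ≤ Real.exp ((m - γ) * U - √U)) ∧
      ∀ S : Finset ℕ, (∀ p ∈ S, p.Prime) → ∀ (q s : ℕ) (y z : Fin 2 → A)
        (F : MvPolynomial (Fin 2 ⊕ Fin 2) K), Admissible q s y z F →
      ∀ (t : ℕ) (G : Fin t → Finset (MaximalSpectrum A)), (∀ i j, i ≠ j → Disjoint (G i) (G j)) →
        (∀ i, ∀ x ∈ G i, LiesOver y z F x) →
      ∀ κ₁ κ₂ : ℝ, 0 ≤ κ₁ → 0 ≤ κ₂ →
        κ₁ * degree K y + κ₂ * degree K z < ∑ i, ((conditions K f (G i) : ℝ) - γ) →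
      ∃ C : ℝ, ∀ (M : Type) [Field M] [NumberField M] [Algebra K M] (φ : A →ₐ[K] M)
        (P : ℙ K (Fin m → K)), P ∉ E → Function.Surjective φ →
        RingHom.ker φ = Ideal.span {member f P.rep} →
        (∃ l, φ (y l) ≠ 0) → (∃ l, φ (z l) ≠ 0) → φ (restriction y z F) ≠ 0 →
        κ₁ * Height.logHeight (fun i => φ (y i)) + κ₂ * Height.logHeight (fun i => φ (z i)) - C ≤
          counting S F q s (fun i => φ (y i)) (fun i => φ (z i)) := by
  obtain ⟨E, hE1, hE2⟩ := Pool.Agent.J6H73.CP.oneQ hA f hf γ hγ
  refine ⟨E, hE1, ?_⟩
  intro S hS q s y z F h t G hG hov κ₁ κ₂ hκ₁ hκ₂ hκ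
  simp only [vanish_eq] at hκ
  obtain ⟨C, hC⟩ := Pool.Agent.J6H73.CP.finalQ Pool.Agent.J6H88.CP.ht f hf hE2 y z h.bihomogeneous h.ne_zero S
    (fun p hp => (hS p hp).ne_zero) t G hG hov κ₁ κ₂ hκ₁ hκ₂ hκ
  refine ⟨C, fun M _ _ _ φ P hPE hφ hker hy hz hR => ?_⟩
  exact sub_le_iff_le_add.2 (hC M φ P hPE hφ hker hy hz hR)

end Pool.Agent.Results.MP_542436_nt.ClosedPointsOfCurves
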