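import Pool.Agent.J6H45.PI.Use
import Pool.Agent.J6H45.WF.Poly
import Pool.Agent.Results.MP_542436_nt.TotientOrbits

/-!
# Vojta's conjecture on `ℙ¹ × ℙ¹` for all points whose conductor is near a function of the value of a polynomial at an
# approximation vector

Let `K` be a number field, `S` a finite set of primes, `q, q' ≥ 3` and `a_1, …, a_q`, `b_1, …, b_q'` different points of the
projective line over `K`. There are `X^(2/q + 2/q' + o(1))` points `(P, Q)` of `ℙ¹ × ℙ¹` over `K`, of all heights, off the fibres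
over the `a_i` and `b_j`, with conductors `exp N^(1)(a, P)` and `exp N^(1)(b, Q)` at most `X`. For every `ε > 0` there is `ν > 0`
with the following property.

Let `k ≥ 1`, `D` and `r` be natural numbers, `γ ∈ ℝ^r`, `τ > 0` and `0 < θ < 1`, and let `G (n) ≥ 0` satisfy
`G (n + 1) - G (n) ≥ a n ^ (d - 1)`, `a > 0`, and `G (n) ≤ K n ^ d`, for example `G (n) = β n ^ d`, `d ≥ 1`. Put
`s = d (2/q + 2/q' - ν) + max (0, 1 - d (1 - θ))`. For all real matrices `α` with `k` rows and `r` columns outside a set of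
Hausdorff dimension at most `(k - 1) r + (r + k - 1 + D s) / (1 + τ)`, for ALL nonconstant polynomials `F` in `k` variables with
integral coefficients and of degree at most `D`, and for all real `c`: for all large integer vectors `v` with
`‖(v α)_j - γ_j‖ ≤ c |v| ^ (-τ)` for all `j`, where `‖x‖` is the distance of `x` to the nearest integer, the integer
`n = |F(v)|` is not `0`, and ALL points `(P, Q)` off the fibres with
`|max (exp N^(1)(a, P), exp N^(1)(b, Q)) - G (n)| ≤ G (n) ^ θ` satisfy `N^(1)_D(P, Q) ≥ (q - ε) h(P) + (q' - ε) h(Q)` for EVERY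
divisor `D`, of any bidegree, which contains the fibres but not `(P, Q)`. If the bidegree of `D` is at most
`(q + 2, q' + 2)`, this is the inequality of the conjecture.

For `τ = k / r`, `γ = 0` and `c = 1` these are all the best approximation vectors `v` of the system `α` of `r` linear forms
in `k` variables, and the bound for the dimension is less than `k r` if `D s < 1`. For example (`k = r = D = d = 1`,
`q = q' = 4`, `θ < ν`): for all real `α` outside a set of dimension less than `1`, for all convergents `m / n` of `α` with large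
`n`, ALL points, of all heights, off the sixteen fibres whose larger conductor is between `n - n ^ θ` and `n + n ^ θ` (there are
`n ^ (θ + o(1))` such points in the mean) satisfy the inequality for all divisors.

Proof. (1) The number of the exceptional points with larger conductor at most `X` is `O (X ^ (2/q + 2/q' - ν))`; this is a
theorem of the starting files (`TotientOrbits.bad_count`, from `GridAlmostAllPoints`). (2) So `G (n)` is near an exceptional
conductor for `O (X ^ s)` integers `n ≤ X` (`Pool.Agent.J6H45.PI.sparse_steps`). (3) There are `O (X ^ (k - 1 + D s + ε))` vectors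
`v` in the box of size `X` with `|F(v)|` exceptional, by the lemma of Schwartz and Zippel (`Pool.Agent.J6H45.WF.thin_poly`).
(4) The metric theorem `Pool.Agent.N671.DA.approx_vectors` (helper671).
-/

set_option autoImplicit false

namespace Pool.Agent.Results.MP_542436_nt.PolynomialsAtApproximations

open NumberField IsDedekindDomain
open Pool.Agent.N671.DA (Near)
open Pool.Agent.J6H45.PI (Steps Around steps_pow)
open GridAlmostAllPoints (P1 height count countD biform)
open MultiplicativeValues (VojtaForAllDivisors Bad)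

variable {K : Type} [Field K] [NumberField K]

/-- the larger one of the conductors `exp N^(1)(a, P)` and `exp N^(1)(b, Q)` -/
noncomputable def conductor (S : Set (HeightOneSpectrum (𝓞 K))) {q q' : ℕ} (a : Fin q → P1 K) (b : Fin q' → P1 K)
    (P Q : P1 K) : ℝ := max (Real.exp (count S a P)) (Real.exp (count S b Q))

theorem count_nonneg (S : Set (HeightOneSpectrum (𝓞 K))) {q : ℕ} (a : Fin q → P1 K) {P : P1 K} (hP : ∀ i, P ≠ a i) :
    0 ≤ count S a P := by
  unfold GridAlmostAllPoints.count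
  refine finsum_nonneg fun v => finsum_nonneg fun _ => le_min ?_ (GridAlmostAllPoints.sum_lam_nonneg hP v)
  exact Real.log_natCast_nonneg _

/-- **Vojta's inequality for all points whose conductor is near a function of the value of a polynomial at an approximation
vector.** (1) For every `ε > 0` there is `ν > 0` such that for all `G` with `G (n + 1) - G n ≥ a n ^ (d - 1)` and
`0 ≤ G n ≤ K n ^ d`, all `0 < θ < 1`, `k ≥ 1`, `D`, `r`, `γ ∈ ℝ^r` and `τ > 0` there is a set `E` of real matrices with `k` rows and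
`r` columns of Hausdorff dimension at most
`(k - 1) r + (r + k - 1 + D (d (2/q + 2/q' - ν) + max (0, 1 - d (1 - θ)))) / (1 + τ)` such that for all `α` outside `E`, all
polynomials `F` with integral coefficients of degree between `1` and `D` and all `c`, for all large integer vectors `v` with
`‖(v α)_j - γ_j‖ ≤ c |v| ^ (-τ)` for all `j`, the integer `F(v)` is not `0`, and ALL points `(P, Q)` off the fibres over the
`a_i`, `b_j` whose conductor is at distance at most `(G |F(v)|) ^ θ` from `G |F(v)|` satisfy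
`N^(1)_D(P, Q) ≥ (q - ε) h(P) + (q' - ε) h(Q)` for every divisor `D` which contains these fibres but not `(P, Q)`.
(2) Examples for `G`. -/
theorem result (K : Type) [Field K] [NumberField K] (S : Set (HeightOneSpectrum (𝓞 K)))
    (hS : S.Finite) (q q' : ℕ) (hq : 3 ≤ q) (hq' : 3 ≤ q') (a : Fin q → P1 K) (b : Fin q' → P1 K)
    (ha : Function.Injective a) (hb : Function.Injective b) :
    (∀ ε : ℝ, 0 < ε → ∃ ν : ℝ, 0 < ν ∧ ∀ (G : ℕ → ℝ) (d : ℝ), Steps G d → ∀ θ : ℝ, 0 < θ → θ < 1 →
      ∀ k D r : ℕ, 1 ≤ k → ∀ (γ : Fin r → ℝ) (τ : ℝ), 0 < τ → ∃ E : Set (Fin k × Fin r → ℝ),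
        dimH E ≤ ENNReal.ofReal (((k : ℝ) - 1) * r +
          (r + ((k : ℝ) - 1 + D * (d * (2 / (q : ℝ) + 2 / (q' : ℝ) - ν) + max 0 (1 - d * (1 - θ))))) / (1 + τ)) ∧
        ∀ α, α ∉ E → ∀ F : MvPolynomial (Fin k) ℤ, 1 ≤ F.totalDegree → F.totalDegree ≤ D → ∀ c : ℝ, ∃ R : ℝ,
          ∀ v : Fin k → ℤ, R ≤ ‖v‖ → Near α γ v (c * ‖v‖ ^ (-τ)) → MvPolynomial.eval v F ≠ 0 ∧
            ∀ P Q : P1 K, (∀ i, P ≠ a i) → (∀ j, Q ≠ b j) →
              |conductor S a b P Q - G (MvPolynomial.eval v F).natAbs| ≤ G (MvPolynomial.eval v F).natAbs ^ θ →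
                VojtaForAllDivisors S a b ε P Q) ∧
    (∀ α d : ℝ, 0 < α → 1 ≤ d → Steps (fun v : ℕ => α * (v : ℝ) ^ d) d) := by
  refine ⟨fun ε hε => ?_, fun α d hα hd => steps_pow hα hd⟩
  obtain ⟨ν, C, hν, hνq, hcount⟩ := TotientOrbits.bad_count S hS hq hq' a b ha hb ε hε
  have hr0 : (0 : ℝ) ≤ 2 / (q' : ℝ) := by positivity
  obtain ⟨ρ, hρ⟩ : ∃ ρ : ℝ, ρ = 2 / (q : ℝ) + 2 / (q' : ℝ) - ν := ⟨_, rfl⟩
  have hρ0 : 0 ≤ ρ := by rw [hρ]; linarith
  refine ⟨ν, hν, fun G d hG θ hθ hθ1 k D r hk γ τ hτ => ?_⟩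
  rw [← hρ] at hcount ⊢
  -- the integer parts of the exceptional conductors
  set T : Set ℕ := (fun z : P1 K × P1 K => ⌊conductor S a b z.1 z.2⌋₊) '' Bad S a b ε with hT
  have hC0 : 0 ≤ C := by
    have h1 := (hcount 1 le_rfl).2
    rw [Real.one_rpow, mul_one] at h1
    exact (Nat.cast_nonneg _).trans h1
  have hTc : ∀ X : ℝ, 1 ≤ X → {t | t ∈ T ∧ (t : ℝ) ≤ X}.Finite ∧
      (({t | t ∈ T ∧ (t : ℝ) ≤ X}.ncard : ℕ) : ℝ) ≤ C * 2 ^ ρ * X ^ ρ := by
    intro X hX
    obtain ⟨h1, h2⟩ := hcount (2 * X) (by linarith)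
    have hsub : {t : ℕ | t ∈ T ∧ (t : ℝ) ≤ X} ⊆ (fun z : P1 K × P1 K => ⌊conductor S a b z.1 z.2⌋₊) ''
        {z | z ∈ Bad S a b ε ∧ max (Real.exp (count S a z.1)) (Real.exp (count S b z.2)) ≤ 2 * X} := by
      rintro t ⟨⟨z, hz, rfl⟩, ht⟩
      refine ⟨z, ⟨hz, ?_⟩, rfl⟩
      have h3 := Nat.lt_floor_add_one (conductor S a b z.1 z.2)
      have h4 : conductor S a b z.1 z.2 ≤ 2 * X := by
        have : ((⌊conductor S a b z.1 z.2⌋₊ : ℕ) : ℝ) ≤ X := ht
        linarith
      exact h4
    have hfin := h1.image (fun z : P1 K × P1 K => ⌊conductor S a b z.1 z.2⌋₊)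
    refine ⟨hfin.subset hsub, ?_⟩
    have h3 := (Set.ncard_le_ncard hsub hfin).trans (Set.ncard_image_le h1)
    calc (({t | t ∈ T ∧ (t : ℝ) ≤ X}.ncard : ℕ) : ℝ)
        ≤ ({z | z ∈ Bad S a b ε ∧ max (Real.exp (count S a z.1)) (Real.exp (count S b z.2)) ≤ 2 * X}.ncard : ℝ) := by
          exact_mod_cast h3
      _ ≤ C * (2 * X) ^ ρ := h2
      _ = C * 2 ^ ρ * X ^ ρ := by
          rw [Real.mul_rpow (by norm_num) (by linarith)]
          ring
  obtain ⟨C', hC'⟩ := Pool.Agent.J6H45.PI.sparse_steps (T := T) (C := C * 2 ^ ρ) (s := ρ) (θ := θ) (by positivity) hρ0 hTc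
    hθ hθ1 (P := fun y => ∀ P Q : P1 K, (∀ i, P ≠ a i) → (∀ j, Q ≠ b j) → conductor S a b P Q = y →
      VojtaForAllDivisors S a b ε P Q) (by
      intro y hy hbad
      push Not at hbad
      obtain ⟨P, Q, hP, hQ, hPQ, hbad⟩ := hbad
      refine ⟨⌊conductor S a b P Q⌋₊, ⟨(P, Q), ⟨hP, hQ, hbad⟩, rfl⟩, ?_⟩
      rw [hPQ]
      have h1 := Nat.floor_le (by linarith : 0 ≤ y)
      have h2 := Nat.lt_floor_add_one y
      have h3 : 1 ≤ y ^ θ := Real.one_le_rpow hy hθ.le
      rw [abs_le]
      constructor <;> linarith) hG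
  have hd : 1 ≤ d := hG.1
  have hmax : 0 ≤ max 0 (1 - d * (1 - θ)) := le_max_left _ _
  have h2 : 0 ≤ d * ρ := mul_nonneg (by linarith) hρ0
  obtain ⟨E, hE, hE2⟩ := Pool.Agent.J6H45.WF.approx_poly hk (s := d * ρ + max 0 (1 - d * (1 - θ))) (by linarith)
    (fun δ hδ => ⟨|C'|, fun X hX => (hC' X hX).trans (by
      refine mul_le_mul (le_abs_self C') ?_ (by positivity) (abs_nonneg C')
      exact Real.rpow_le_rpow_of_exponent_le (by exact_mod_cast hX) (by linarith))⟩) D γ hτ
  refine ⟨E, hE, fun α hα F h3 h4 c => ?_⟩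
  obtain ⟨R, hR⟩ := hE2 α hα F h3 h4 c
  refine ⟨R, fun v hv h5 => ⟨(hR v hv h5).1, fun P Q hP hQ h6 => ?_⟩⟩
  refine (hR v hv h5).2 (conductor S a b P Q) ?_ h6 P Q hP hQ rfl
  exact le_max_of_le_left (Real.one_le_exp (count_nonneg S a hP))

end Pool.Agent.Results.MP_542436_nt.PolynomialsAtApproximations
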