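import Pool.Agent.J6H73.P1.Num

/-!
# The truncated Vojta inequality at almost all points of degree `r` of all rational curves of
# `ℙ¹ × ℙ¹`, over the field of the point

Let `K` be a number field and `r ≥ 1`. There is ONE set `E` of algebraic numbers `x` of degree `r`
over `K` (given by their minimal polynomials), of density zero: it contains at most the proportion
`C exp(-√T)` of the numbers of degree `r` over `K` of absolute logarithmic height at most `T`, such
that the following holds for all numbers `x` of degree `r` over `K` outside `E`.

(I) For ALL rational curves `x ↦ P(x) = (A(x), B(x))` of `ℙ¹ × ℙ¹` over `K`, with components of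
degrees `a` and `b`, ALL divisors `D : F = 0` over `K` of bidegree `(q, s)` not containing the
curve, and all finite sets `S` of primes, if `κ₁ a + κ₂ b < n`, then, with the field `M = K(x)`,
`N^(1)_S(D, P(x)) ≥ κ₁ h_M(A(x)) + κ₂ h_M(B(x)) - C`, with `C` independent of `x`. Here `n` is the
number of the geometric points of the line which the curve maps to `D`, if all of them are of degree
at most `2 r + 1` over `K`; a closed point of larger degree is counted `r + 1` times. In
particular the inequality of the problem, `κ₁ = q - 2 - ε`, `κ₂ = s - 2 - ε`, holds if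
`(q - 2) a + (s - 2) b ≤ n`.

(II) The same for all rational curves and all divisors over all number fields `k` containing `K`,
over the fields `M = k(x)`, `n` being the number of the `k`-rational points of the line which are
mapped to `D` and which are of degree at most `2 r + 1` over `K`.

The heights and the local heights are those of the problem, relative to `M`; `Height.logHeight` is
the logarithmic height of a vector relative to its field.

Proof. By the diagonal argument one has to show that for a closed point `Q` of the line and `ε > 0`
the numbers `x` of degree `r` and height at most `T` for which the primes `w` of `K(x)` at which `x`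
meets `Q` satisfy `∑ log N w < (min(r + 1, deg Q) - ε) h(x) - C` are few
(`Pool.Agent.J6H73.SB`, lattice points and translates), and the similar statement for rational points
over extensions (`Pool.Agent.N707.DR`); one descends from the splitting field of `Q`, and compares
with the local heights of `D` on the curve.
-/

set_option autoImplicit false

namespace Pool.Agent.Results.MP_542436_nt.RationalCurvesAllDegrees

open NumberField IsDedekindDomain Polynomial

/-- the minimal polynomials over `K` of the algebraic numbers of degree `r` over `K` whose absolute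
logarithmic height is at most `T` -/
def Numbers (K : Type) [Field K] [NumberField K] (r : ℕ) (T : ℝ) : Set K[X] :=
  {p | p.natDegree = r ∧ ∃ (M : Type) (_ : Field M) (_ : NumberField M) (_ : Algebra K M) (x : M),
    Module.finrank K M = r ∧ minpoly K x = p ∧ Height.logHeight₁ x / Module.finrank ℚ M ≤ T}

/-- `x ↦ (A 0 (x) : A 1 (x))` is a map from the projective line to itself of degree `a`, given by
coprime polynomials -/
structure IsMap {k : Type} [Field k] (a : ℕ) (A : Fin 2 → k[X]) : Prop where
  degree_le : ∀ i, (A i).natDegree ≤ a
  degree_eq : ∃ i, (A i).natDegree = a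
  coprime : ∃ u : Fin 2 → k[X], ∑ i, u i * A i = 1

/-- the restriction `F (A; B)` of a form `F` in two pairs of variables to the curve
`x ↦ (A (x), B (x))` -/
noncomputable def restriction {k : Type} [Field k] (A B : Fin 2 → k[X])
    (F : MvPolynomial (Fin 2 ⊕ Fin 2) k) : k[X] := MvPolynomial.aeval (Sum.elim A B) F

open Classical in
/-- the number of the points of the projective line which the curve maps to the divisor `F = 0` of
bidegree `(q, s)`, `N = a q + b s`, if all of them are of degree at most `2 r + 1` over `K`: a
closed point of degree `δ`, the zeros of a monic irreducible factor `Q` of degree `δ` of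
`R = F (A; B)`, is counted `δ` times if `δ ≤ 2 r + 1`, and `r + 1` times otherwise; infinity is one of
the points if the degree of `R` is smaller than `N` -/
noncomputable def points {K : Type} [Field K] (r : ℕ) (R : K[X]) (N : ℕ) : ℕ :=
  ∑ Q ∈ (UniqueFactorizationMonoid.normalizedFactors R).toFinset,
    (if Q.natDegree ≤ 2 * r + 1 then Q.natDegree else r + 1) +
    if R.natDegree < N then 1 else 0

open Classical in
/-- the number of the `k`-rational points of the projective line, of degree at most `2 r + 1` over
`K`, which the curve maps to the divisor -/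
noncomputable def rationalPoints (K : Type) {k : Type} [Field K] [Field k] [Algebra K k] (r : ℕ)
    (R : k[X]) (N : ℕ) : ℕ :=
  (R.roots.toFinset.filter fun α => (minpoly K α).natDegree ≤ 2 * r + 1).card +
    if R.natDegree < N then 1 else 0

section Local

variable {k M : Type} [Field k] [Field M] [NumberField M] [Algebra k M]

/-- the local height at the prime `v` of `M` of the divisor `F = 0` of bidegree `(q, s)`, defined
over `k`, at the point `(y, z)` over `M`, normalised by the maximum of the absolute values of the
coefficients of `F` -/
noncomputable def localHeight (F : MvPolynomial (Fin 2 ⊕ Fin 2) k) (q s : ℕ)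
    (v : HeightOneSpectrum (𝓞 M)) (y z : Fin 2 → M) : ℝ :=
  Real.log ((⨆ d : F.support, FinitePlace.mk v (algebraMap k M (F.coeff d))) *
    ((⨆ i, FinitePlace.mk v (y i)) ^ q * (⨆ i, FinitePlace.mk v (z i)) ^ s) /
    FinitePlace.mk v (MvPolynomial.aeval (Sum.elim y z) F))

/-- the truncated counting function `N^(1)_S(D, P)` over `M`: the sum of
`min (log N(v), localHeight)` over the primes `v` of `M` not above the primes in `S` -/
noncomputable def counting (S : Finset ℕ) (F : MvPolynomial (Fin 2 ⊕ Fin 2) k) (q s : ℕ)
    (y z : Fin 2 → M) : ℝ :=
  ∑ᶠ (v : HeightOneSpectrum (𝓞 M)) (_ : ∀ p ∈ S, (p : 𝓞 M) ∉ v.asIdeal),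
    min (Real.log (Ideal.absNorm v.asIdeal : ℝ)) (localHeight F q s v y z)

end Local

/-- a rational curve over `k` with components of degrees `a` and `b`, and a divisor `F = 0` of
bidegree `(q, s)` over `k` which does not contain it -/
structure Admissible {k : Type} [Field k] (a b q s : ℕ) (A B : Fin 2 → k[X])
    (F : MvPolynomial (Fin 2 ⊕ Fin 2) k) : Prop where
  first : IsMap a A
  second : IsMap b B
  bihomogeneous : F.IsWeightedHomogeneous (Sum.elim (fun _ : Fin 2 => ((1, 0) : ℕ × ℕ))
      (fun _ : Fin 2 => ((0, 1) : ℕ × ℕ))) (q, s)
  ne_zero : restriction A B F ≠ 0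

/-- **Theorem.** There are sets `E K r` of (minimal polynomials of) numbers of degree `r` over `K` of
density zero such that (I) for all rational curves and divisors over `K` and all numbers `x` of degree
`r` over `K` outside `E K r`, the inequality
`N^(1)_S(D, P) ≥ κ₁ h_M(α) + κ₂ h_M(β) - C` holds over `M = K(x)` at the point `P = (α, β)` of the
curve with the parameter `x`, if `κ₁ a + κ₂ b` is smaller than the number of the points over `D`;
(II) the same for all rational curves and divisors over all number fields `k` containing `K`, over
`M = k(x)`. -/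
theorem result :
    ∃ E : ∀ (K : Type) [Field K] [NumberField K], ℕ → Set K[X],
      ∀ (K : Type) [Field K] [NumberField K] (r : ℕ), 1 ≤ r →
        ((∀ T : ℝ, (Numbers K r T).Finite) ∧
        (∃ c T₀ : ℝ, 0 < c ∧ ∀ T : ℝ, T₀ ≤ T →
          c * Real.exp (r * (r + 1) * Module.finrank ℚ K * T) ≤ (Numbers K r T).ncard) ∧
        ∃ C : ℝ, ∀ T : ℝ, 0 ≤ T → ((E K r ∩ Numbers K r T).ncard : ℝ) ≤
          C * Real.exp (-√T) * (Numbers K r T).ncard) ∧
        -- (I)
        (∀ S : Finset ℕ, (∀ p ∈ S, p.Prime) → ∀ (a b q s : ℕ) (A B : Fin 2 → K[X])
          (F : MvPolynomial (Fin 2 ⊕ Fin 2) K), Admissible a b q s A B F → ∀ κ₁ κ₂ : ℝ,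
          κ₁ * a + κ₂ * b < points r (restriction A B F) (a * q + b * s) →
          ∃ C : ℝ, ∀ (M : Type) [Field M] [NumberField M] [Algebra K M] (x : M),
            Module.finrank K M = r → (minpoly K x).natDegree = r → minpoly K x ∉ E K r →
            aeval x (restriction A B F) ≠ 0 →
            κ₁ * Height.logHeight (fun i => aeval x (A i)) +
                κ₂ * Height.logHeight (fun i => aeval x (B i)) - C ≤
              counting S F q s (fun i => aeval x (A i)) (fun i => aeval x (B i))) ∧
        -- (II)
        (∀ (k : Type) [Field k] [NumberField k] [Algebra K k],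
          ∀ S : Finset ℕ, (∀ p ∈ S, p.Prime) → ∀ (a b q s : ℕ) (A B : Fin 2 → k[X])
          (F : MvPolynomial (Fin 2 ⊕ Fin 2) k), Admissible a b q s A B F → ∀ κ₁ κ₂ : ℝ,
          κ₁ * a + κ₂ * b < rationalPoints K r (restriction A B F) (a * q + b * s) →
          ∃ C : ℝ, ∀ (M : Type) [Field M] [NumberField M] [Algebra K M] [Algebra k M]
            [IsScalarTower K k M] (x : M), IntermediateField.adjoin k {x} = ⊤ →
            (minpoly K x).natDegree = r → minpoly K x ∉ E K r →
            aeval x (restriction A B F) ≠ 0 →
            κ₁ * Height.logHeight (fun i => aeval x (A i)) +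
                κ₂ * Height.logHeight (fun i => aeval x (B i)) - C ≤
              counting S F q s (fun i => aeval x (A i)) (fun i => aeval x (B i))) := by
  classical
  let E : ∀ (K : Type) [Field K] [NumberField K], ℕ → Set K[X] := fun K _ _ r =>
    if h : 1 ≤ r then (Pool.Agent.J6H73.P1.exists_excB K r h).choose else ∅
  have hE : ∀ (K : Type) [Field K] [NumberField K] (r : ℕ), 1 ≤ r →
      Pool.Agent.J6H73.P1.ExcB K r (E K r) := by
    intro K _ _ r hr
    have h1 : E K r = (Pool.Agent.J6H73.P1.exists_excB K r hr).choose := dif_pos hr
    rw [h1]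
    exact (Pool.Agent.J6H73.P1.exists_excB K r hr).choose_spec
  refine ⟨E, fun K _ _ r hr => ⟨?_, ?_, ?_⟩⟩
  · exact Pool.Agent.J6H73.P1.density K r hr fun U hU => ((hE K r hr).count U hU).2
  · intro S hS a b q s A B F h κ₁ κ₂ hκ
    obtain ⟨C, hC⟩ := Pool.Agent.J6H73.P1.final1 (hE K r hr)
      ⟨h.first.degree_le, h.first.degree_eq, h.first.coprime⟩
      ⟨h.second.degree_le, h.second.degree_eq, h.second.coprime⟩ h.bihomogeneous h.ne_zero S
      (fun p hp => (hS p hp).ne_zero) κ₁ κ₂ hκ
    refine ⟨C, fun M _ _ _ x hM hx hxE hRx => ?_⟩
    have h1 := hC M x hM hx hxE hRx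
    exact sub_le_iff_le_add.2 h1
  · intro k _ _ _ S hS a b q s A B F h κ₁ κ₂ hκ
    obtain ⟨C, hC⟩ := Pool.Agent.J6H73.P1.final2 (hE K r hr)
      ⟨h.first.degree_le, h.first.degree_eq, h.first.coprime⟩
      ⟨h.second.degree_le, h.second.degree_eq, h.second.coprime⟩ h.bihomogeneous h.ne_zero S
      (fun p hp => (hS p hp).ne_zero) κ₁ κ₂ hκ
    refine ⟨C, fun M _ _ _ _ _ x hadj hx hxE hRx => ?_⟩
    have h1 := hC M x hadj hx hxE hRx
    exact sub_le_iff_le_add.2 h1

end Pool.Agent.Results.MP_542436_nt.RationalCurvesAllDegrees
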