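import Mathlib
import Pool.Agent.J6H73.PS.Fin

/-!
# The truncated Vojta inequality on all rational curves of `ℙ¹ × ℙ¹`, over the field of the point, with
# a power saving for the exceptional points of degree `r`

Let `K` be a number field, `r ≥ 1` and `0 ≤ γ < r + 1`. There is ONE set `E` of algebraic numbers of
degree `r` over `K` (given by their minimal polynomials), with at most
`exp (r (r + 1 - γ) [K : ℚ] T - √T)` elements of absolute logarithmic height at most `T` (there are
at least `c exp (r (r + 1) [K : ℚ] T)` numbers of degree `r` over `K` of height at most `T`), such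
that the following holds for all numbers `x` of degree `r` over `K` outside `E`, for ALL rational
curves `x ↦ P(x) = (A(x), B(x))` of `ℙ¹ × ℙ¹` over `K`, with components of degrees `a` and `b`, ALL
divisors `D : F = 0` over `K` of bidegree `(q, s)` not containing the curve, and all finite sets `S`
of primes. Divide (some of) the closed points of the line over `D` into groups `G_1, …, G_t`, and let
`d_i` be the number of the geometric points in `G_i`. If
`κ₁ a + κ₂ b < ∑ (min (r + 1, d_i) - γ)`, then over the field `M = K(x)`
`N^(1)_S(D, P(x)) ≥ κ₁ h_M(A(x)) + κ₂ h_M(B(x)) - C`, with `C` independent of `x`.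

For example: if the `n` points over `D` can be divided into `t` groups, stable under the Galois
group, of at most `r + 1` points each, the condition is `κ₁ a + κ₂ b < n - t γ`. With one group: if
`n ≤ r + 1`, then the inequality of the problem, `κ₁ = q - 2`, `κ₂ = s - 2` (even with `ε = 0`), holds
on the curve at all points of degree `r` outside `E` if `γ < n - (q - 2) a - (s - 2) b`, which is
`γ < 2 (a + b)` if the curve meets `D` in `D · C = q a + s b` different points. With `γ` close to `0`
and the closed points themselves as the groups the condition is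
`κ₁ a + κ₂ b < ∑ (min (r + 1, δ) - γ)`, where `δ` runs over the degrees of the closed points.

The heights and the local heights are those of the problem, relative to `M`; `Height.logHeight` is
the logarithmic height of a vector relative to its field.

Proof. The minimal polynomials of the exceptional numbers `x` have values at the points of one of the
groups `G_i` whose norms have together a radical at most `exp ((min (r + 1, d_i) - γ - η) U)`,
`U = h_M(x)`. We fix the set of the primes of `K` which divide these norms; there are few units and
numbers of bounded height which are supported above these primes, so there are few possibilities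
for all the values together, and they impose `min (r + 1, d_i)` independent conditions on the
coefficients. A diagonal argument yields one set for all curves and divisors.
-/

set_option autoImplicit false

namespace Pool.Agent.Results.MP_542436_nt.RationalCurvesPowerSaving

open NumberField IsDedekindDomain Polynomial

/-- the minimal polynomials over `K` of the algebraic numbers of degree `r` over `K` whose absolute
logarithmic height is at most `T` -/
def Numbers (K : Type) [Field K] [NumberField K] (r : ℕ) (T : ℝ) : Set K[X] :=
  {p | p.natDegree = r ∧ ∃ (M : Type) (_ : Field M) (_ : NumberField M) (_ : Algebra K M) (x : M),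
    Module.finrank K M = r ∧ minpoly K x = p ∧ Height.logHeight₁ x / Module.finrank ℚ M ≤ T}

/-- `x ↦ (A 0 (x) : A 1 (x))` is a map from the projective line to itself of degree `a`, given by
coprime polynomials -/
structure IsMap {K : Type} [Field K] (a : ℕ) (A : Fin 2 → K[X]) : Prop where
  degree_le : ∀ i, (A i).natDegree ≤ a
  degree_eq : ∃ i, (A i).natDegree = a
  coprime : ∃ u : Fin 2 → K[X], ∑ i, u i * A i = 1

/-- the restriction `F (A; B)` of a form `F` in two pairs of variables to the curve
`x ↦ (A (x), B (x))` -/
noncomputable def restriction {K : Type} [Field K] (A B : Fin 2 → K[X])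
    (F : MvPolynomial (Fin 2 ⊕ Fin 2) K) : K[X] := MvPolynomial.aeval (Sum.elim A B) F

/-- the closed points of the projective line over `K`: infinity (`none`) and the monic irreducible
polynomials -/
abbrev ClosedPoint (K : Type) [Field K] : Type := Option {Q : K[X] // Q.Monic ∧ Irreducible Q}

/-- the degree of a closed point, the number of the geometric points in it -/
def degree {K : Type} [Field K] : ClosedPoint K → ℕ
  | none => 1
  | some Q => Q.1.natDegree

/-- the curve maps the closed point to the divisor; `R` is the restriction of the form to the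
curve and `N = a q + b s` -/
def LiesOver {K : Type} [Field K] (R : K[X]) (N : ℕ) : ClosedPoint K → Prop
  | none => R.natDegree < N
  | some Q => Q.1 ∣ R

section Local

variable {K M : Type} [Field K] [Field M] [NumberField M] [Algebra K M]

/-- the local height at the prime `v` of `M` of the divisor `F = 0` of bidegree `(q, s)`, defined
over `K`, at the point `(y, z)` over `M`, normalised by the maximum of the absolute values of the
coefficients of `F` -/
noncomputable def localHeight (F : MvPolynomial (Fin 2 ⊕ Fin 2) K) (q s : ℕ)
    (v : HeightOneSpectrum (𝓞 M)) (y z : Fin 2 → M) : ℝ :=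
  Real.log ((⨆ d : F.support, FinitePlace.mk v (algebraMap K M (F.coeff d))) *
    ((⨆ i, FinitePlace.mk v (y i)) ^ q * (⨆ i, FinitePlace.mk v (z i)) ^ s) /
    FinitePlace.mk v (MvPolynomial.aeval (Sum.elim y z) F))

/-- the truncated counting function `N^(1)_S(D, P)` over `M`: the sum of
`min (log N(v), localHeight)` over the primes `v` of `M` not above the primes in `S` -/
noncomputable def counting (S : Finset ℕ) (F : MvPolynomial (Fin 2 ⊕ Fin 2) K) (q s : ℕ)
    (y z : Fin 2 → M) : ℝ :=
  ∑ᶠ (v : HeightOneSpectrum (𝓞 M)) (_ : ∀ p ∈ S, (p : 𝓞 M) ∉ v.asIdeal),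
    min (Real.log (Ideal.absNorm v.asIdeal : ℝ)) (localHeight F q s v y z)

end Local

/-- a rational curve over `K` with components of degrees `a` and `b`, and a divisor `F = 0` of
bidegree `(q, s)` over `K` which does not contain it -/
structure Admissible {K : Type} [Field K] (a b q s : ℕ) (A B : Fin 2 → K[X])
    (F : MvPolynomial (Fin 2 ⊕ Fin 2) K) : Prop where
  first : IsMap a A
  second : IsMap b B
  bihomogeneous : F.IsWeightedHomogeneous (Sum.elim (fun _ : Fin 2 => ((1, 0) : ℕ × ℕ))
      (fun _ : Fin 2 => ((0, 1) : ℕ × ℕ))) (q, s)
  ne_zero : restriction A B F ≠ 0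

/-- **Theorem.** There are sets `E K r γ` of (minimal polynomials of) numbers of degree `r` over `K`
with at most `exp (r (r + 1 - γ) [K : ℚ] T - √T)` elements of absolute height at most `T`, such that
for all rational curves and divisors over `K`, all disjoint groups `G i` of closed points over the
divisor, and all `κ₁`, `κ₂` with `κ₁ a + κ₂ b < ∑ (min (r + 1, d_i) - γ)` the inequality
`N^(1)_S(D, P) ≥ κ₁ h_M(α) + κ₂ h_M(β) - C` holds over `M = K(x)` at the point `P = (α, β)` of the
curve with the parameter `x`, for all `x` of degree `r` over `K` outside `E K r γ`. -/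
theorem result :
    ∃ E : ∀ (K : Type) [Field K] [NumberField K], ℕ → ℝ → Set K[X],
      ∀ (K : Type) [Field K] [NumberField K] (r : ℕ), 1 ≤ r →
        (∀ T : ℝ, (Numbers K r T).Finite) ∧
        (∃ c T₀ : ℝ, 0 < c ∧ ∀ T : ℝ, T₀ ≤ T →
          c * Real.exp (r * (r + 1) * Module.finrank ℚ K * T) ≤ (Numbers K r T).ncard) ∧
        ∀ γ : ℝ, 0 ≤ γ → γ < r + 1 →
          (∀ T : ℝ, 0 ≤ T → ((E K r γ ∩ Numbers K r T).ncard : ℝ) ≤
            Real.exp (r * (r + 1 - γ) * Module.finrank ℚ K * T - √T)) ∧
          ∀ S : Finset ℕ, (∀ p ∈ S, p.Prime) → ∀ (a b q s : ℕ) (A B : Fin 2 → K[X])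
            (F : MvPolynomial (Fin 2 ⊕ Fin 2) K), Admissible a b q s A B F →
          ∀ (t : ℕ) (G : Fin t → Finset (ClosedPoint K)),
            (∀ i j, i ≠ j → Disjoint (G i) (G j)) →
            (∀ i, ∀ z ∈ G i, LiesOver (restriction A B F) (a * q + b * s) z) →
          ∀ κ₁ κ₂ : ℝ,
            κ₁ * a + κ₂ * b < ∑ i, (((min (r + 1) (∑ z ∈ G i, degree z) : ℕ) : ℝ) - γ) →
          ∃ C : ℝ, ∀ (M : Type) [Field M] [NumberField M] [Algebra K M] (x : M),
            Module.finrank K M = r → (minpoly K x).natDegree = r → minpoly K x ∉ E K r γ →
            aeval x (restriction A B F) ≠ 0 →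
            κ₁ * Height.logHeight (fun i => aeval x (A i)) +
                κ₂ * Height.logHeight (fun i => aeval x (B i)) - C ≤
              counting S F q s (fun i => aeval x (A i)) (fun i => aeval x (B i)) := by
  classical
  let E : ∀ (K : Type) [Field K] [NumberField K], ℕ → ℝ → Set K[X] := fun K _ _ r γ =>
    if h : 1 ≤ r ∧ γ < r + 1 then (Pool.Agent.J6H73.PS.oneG (K := K) r h.1 γ h.2).choose else ∅
  refine ⟨E, fun K _ _ r hr => ?_⟩
  obtain ⟨hfin, hlow, -⟩ := Pool.Agent.J6H73.P1.density K r hr (E := ∅) (by
    intro U _
    simp only [Set.mem_empty_iff_false, false_and, Set.setOf_false, Set.ncard_empty,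
      Nat.cast_zero]
    positivity)
  refine ⟨hfin, hlow, fun γ _ hγ => ?_⟩
  have h1 : E K r γ = (Pool.Agent.J6H73.PS.oneG (K := K) r hr γ hγ).choose := dif_pos ⟨hr, hγ⟩
  obtain ⟨hE1, hE2⟩ := (Pool.Agent.J6H73.PS.oneG (K := K) r hr γ hγ).choose_spec
  rw [← h1] at hE1 hE2
  refine ⟨fun T hT => ?_, ?_⟩
  · have h2 := Pool.Agent.J6H73.PS.density' K r hr γ (fun U hU => (hE1 U hU).2) T hT
    refine h2.trans (le_of_eq ?_)
    congr 1
    ring
  · intro S hS a b q s A B F h t G hG hov κ₁ κ₂ hκ
    have hdg : ∀ z : ClosedPoint K, Pool.Agent.J6H60.DR.dg z = degree z := by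
      intro z
      cases z <;> rfl
    have hlo : ∀ z : ClosedPoint K, LiesOver (restriction A B F) (a * q + b * s) z →
        Pool.Agent.J6H73.PS.Ov (MvPolynomial.aeval (Sum.elim A B) F) (a * q + b * s) z := by
      intro z hz
      cases z with
      | none => exact hz
      | some Q => exact hz
    obtain ⟨C, hC⟩ := Pool.Agent.J6H73.PS.final3 hE2
      ⟨h.first.degree_le, h.first.degree_eq, h.first.coprime⟩
      ⟨h.second.degree_le, h.second.degree_eq, h.second.coprime⟩ h.bihomogeneous h.ne_zero S
      (fun p hp => (hS p hp).ne_zero) t G hG (fun i z hz => hlo z (hov i z hz)) κ₁ κ₂ (by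
        simp only [hdg]
        exact hκ)
    refine ⟨C, fun M _ _ _ x hM hx hxE hRx => ?_⟩
    have h1 := hC M x hM hx hxE hRx
    exact sub_le_iff_le_add.2 h1

end Pool.Agent.Results.MP_542436_nt.RationalCurvesPowerSaving
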